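import Mathlib
import Pool.Agent.Y501.SY.Thin
import Pool.Agent.Y501.SY.PairL

/-!
SY-TR: sets with totally real tangent spaces are thin.
-/

set_option autoImplicit false

open Set Filter Topology MeasureTheory
open scoped Manifold ContDiff

noncomputable section

namespace Pool.Agent.Y388.SY

open Pool.Agent.Y501.SY

section

variable {d : ℕ} {X : Type} [TopologicalSpace X] [ChartedSpace (E d) X]

/-- finitely many functions suffice -/
lemma finite_family (J : End d X) (C : Set X) (z : X) :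
    ∀ (m : ℕ) (W : Submodule ℝ (E d)), Module.finrank ℝ W ≤ m →
    (∀ v : E d, v ∈ W → (∀ g : X → ℝ, SmoothFun (d := d) g → (∀ x ∈ C, g x = 0) →
      (dd (d := d) g z : E d →L[ℝ] ℝ) v = 0 ∧
      (dd (d := d) g z : E d →L[ℝ] ℝ) ((J z : E d →L[ℝ] E d) v) = 0) → v = 0) →
    ∃ (n : ℕ) (g : Fin n → X → ℝ), (∀ i, SmoothFun (d := d) (g i)) ∧ (∀ i, ∀ x ∈ C, g i x = 0) ∧
      ∀ v : E d, v ∈ W → (∀ i, (dd (d := d) (g i) z : E d →L[ℝ] ℝ) v = 0 ∧
        (dd (d := d) (g i) z : E d →L[ℝ] ℝ) ((J z : E d →L[ℝ] E d) v) = 0) → v = 0 := by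
  intro m
  induction m with
  | zero =>
    intro W hW _
    have h0 : W = ⊥ := by
      rw [← Submodule.finrank_eq_zero (R := ℝ)]
      omega
    refine ⟨0, fun i => i.elim0, fun i => i.elim0, fun i => i.elim0, fun v hv _ => ?_⟩
    rw [h0] at hv
    exact (Submodule.mem_bot ℝ).1 hv
  | succ m ih =>
    intro W hW hk
    by_cases hbot : W = ⊥
    · refine ⟨0, fun i => i.elim0, fun i => i.elim0, fun i => i.elim0, fun v hv _ => ?_⟩
      rw [hbot] at hv
      exact (Submodule.mem_bot ℝ).1 hv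
    · obtain ⟨v, hv, hv0⟩ := Submodule.exists_mem_ne_zero_of_ne_bot hbot
      have h1 : ∃ g : X → ℝ, SmoothFun (d := d) g ∧ (∀ x ∈ C, g x = 0) ∧
          ¬ ((dd (d := d) g z : E d →L[ℝ] ℝ) v = 0 ∧
            (dd (d := d) g z : E d →L[ℝ] ℝ) ((J z : E d →L[ℝ] E d) v) = 0) := by
        by_contra h
        push Not at h
        exact hv0 (hk v hv fun g hg hgC => h g hg hgC)
      obtain ⟨g₀, hg₀, hg₀C, hg₀v⟩ := h1
      let α₀ : E d →L[ℝ] ℝ := dd (d := d) g₀ z
      let J₀ : E d →L[ℝ] E d := J z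
      let K₀ : Submodule ℝ (E d) := LinearMap.ker α₀.toLinearMap ⊓
        LinearMap.ker (α₀.comp J₀).toLinearMap
      have hlt : W ⊓ K₀ < W := by
        refine lt_of_le_of_ne inf_le_left fun he => ?_
        have h5 : v ∈ W ⊓ K₀ := by rw [he]; exact hv
        exact hg₀v ⟨h5.2.1, h5.2.2⟩
      have h6 := Submodule.finrank_lt_finrank_of_lt hlt
      obtain ⟨n, g, hg, hgC, hgk⟩ := ih (W ⊓ K₀) (by omega) (fun v hv h => hk v hv.1 h)
      refine ⟨n + 1, Fin.cons g₀ g, ?_, ?_, ?_⟩
      · intro i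
        refine Fin.cases ?_ (fun j => ?_) i
        · exact hg₀
        · exact hg j
      · intro i
        refine Fin.cases ?_ (fun j => ?_) i
        · exact hg₀C
        · exact hgC j
      · intro v hv h
        have h7 := h 0
        refine hgk v ⟨hv, h7.1, h7.2⟩ fun i => ?_
        exact h i.succ

end

theorem t_TR : S_TR := by
  intro d X _ _ _ _ J hJ σ C z hz
  classical
  let c := chartAt (E d) z
  have hzs : z ∈ c.source := mem_chart_source (E d) z
  have hcd : c.MDifferentiable (𝓡 d) (𝓡 d) := mdifferentiable_chart (I := 𝓡 d) z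
  let A : TangentSpace (𝓡 d) z ≃L[ℝ] E d := hcd.mfderiv hzs
  obtain ⟨b⟩ : Nonempty (SmoothBumpFunction (𝓡 d) z) := inferInstance
  let F : X → E d := fun x => b x • c x
  have hF : ContMDiff (𝓡 d) 𝓘(ℝ, E d) ∞ F := b.contMDiff_smul (contMDiffOn_chart (I := 𝓡 d))
  have hFc : F =ᶠ[𝓝 z] c := by
    filter_upwards [b.eventuallyEq_one] with x hx
    change b x • c x = c x
    rw [hx]
    exact one_smul ℝ (c x)
  let G : Fin d → X → ℝ := fun j x => F x j
  have hG : ∀ j, SmoothFun (d := d) (G j) := by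
    intro j
    exact ((EuclideanSpace.proj (𝕜 := ℝ) j : E d →L[ℝ] ℝ).contDiff.contMDiff).comp hF
  have hcdz : MDifferentiableAt (𝓡 d) 𝓘(ℝ, E d) c z := hcd.mdifferentiableAt hzs
  have hdG : ∀ j (v : TangentSpace (𝓡 d) z), dd (G j) z v = (A v) j := by
    intro j v
    have e1 : G j =ᶠ[𝓝 z] (EuclideanSpace.proj (𝕜 := ℝ) j : E d →L[ℝ] ℝ) ∘ c := by
      filter_upwards [hFc] with x hx
      change F x j = c x j
      rw [hx]
    unfold dd
    rw [e1.mfderiv_eq, mfderiv_comp z
      ((EuclideanSpace.proj (𝕜 := ℝ) j : E d →L[ℝ] ℝ).contDiff.contMDiff.mdifferentiableAt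
        (n := 1) one_ne_zero) hcdz,
      mfderiv_eq_fderiv, ContinuousLinearMap.fderiv]
    rfl
  -- the finitely many functions
  obtain ⟨n, g, hg, hgC, hgk⟩ := finite_family J C z (Module.finrank ℝ (⊤ : Submodule ℝ (E d))) ⊤ le_rfl
    (by
      intro v _ h
      exact hz v (fun g hg hgC => (h g hg hgC).1) (fun g hg hgC => (h g hg hgC).2))
  -- coefficients
  let lam : Fin n → TangentSpace (𝓡 d) z → ℝ := fun j v => - dd (g j) z (J z v)
  let cf : Fin n → Fin d → ℝ := fun j k => lam j (A.symm (EuclideanSpace.single k (1 : ℝ)))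
  have hlam : ∀ j v, ∑ k, cf j k * (A v) k = lam j v := by
    intro j v
    have e1 : v = ∑ k, (A v) k • A.symm (EuclideanSpace.single k (1 : ℝ)) := by
      apply A.injective
      rw [map_sum]
      have e2 : ∀ k, A ((A v) k • A.symm (EuclideanSpace.single k (1 : ℝ))) =
          (A v) k • (EuclideanSpace.single k (1 : ℝ) : E d) := by
        intro k
        rw [map_smul, A.apply_symm_apply]
      rw [Finset.sum_congr rfl fun k _ => e2 k]
      ext i
      simp [Finset.sum_apply, Pi.single_apply]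
    conv_rhs => rw [e1]
    change _ = - dd (g j) z (J z (∑ k, (A v) k • A.symm (EuclideanSpace.single k (1 : ℝ))))
    rw [map_sum, map_sum, ← Finset.sum_neg_distrib]
    refine Finset.sum_congr rfl fun k _ => ?_
    rw [map_smul, map_smul]
    change - dd (g j) z (J z (A.symm (EuclideanSpace.single k (1 : ℝ)))) * (A v) k =
      - ((A v) k * dd (g j) z (J z (A.symm (EuclideanSpace.single k (1 : ℝ)))))
    ring
  let e : Fin (n * d) ≃ Fin n × Fin d := finProdFinEquiv.symm
  let aa : Fin n × Fin d → X → ℝ := fun q x => cf q.1 q.2 * g q.1 x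
  let bb : Fin n × Fin d → X → ℝ := fun q x => G q.2 x
  have haa : ∀ q, SmoothFun (d := d) (aa q) := fun q => (SmoothFun.const _).mul (hg q.1)
  refine ⟨n * d, fun i => aa (e i), fun i => bb (e i), univ, univ_mem, fun i => haa _,
    fun i => hG _, ?_, ?_⟩
  · intro i
    have h1 : (fun x => (aa (e i) x, bb (e i) x)) '' (C ∩ univ) ⊆ ({0} : Set ℝ) ×ˢ (univ : Set ℝ) := by
      rintro _ ⟨x, hx, rfl⟩
      refine ⟨?_, mem_univ _⟩
      change cf (e i).1 (e i).2 * g (e i).1 x = 0
      rw [hgC _ x hx.1, mul_zero]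
    refine measure_mono_null h1 ?_
    rw [Measure.volume_eq_prod, Measure.prod_prod, Real.volume_singleton, zero_mul]
  · intro v hv _
    have hdaa : ∀ q (w : TangentSpace (𝓡 d) z), dd (aa q) z w = cf q.1 q.2 * dd (g q.1) z w := by
      intro q w
      have h1 := dd_mul (SmoothFun.const (d := d) (X := X) (cf q.1 q.2)) (hg q.1) z w
      have h2 : dd (d := d) (fun _ : X => cf q.1 q.2) z w = 0 := by
        unfold dd
        rw [mfderiv_const]
        rfl
      rw [h2, mul_zero, add_zero] at h1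
      exact h1
    have h1 : (∑ i, dfdg (d := d) (aa (e i)) (bb (e i))) z ![v, J z v] =
        ∑ j, ((dd (g j) z v) ^ 2 + (dd (g j) z (J z v)) ^ 2) := by
      rw [sum_apply2]
      have h2 : ∀ q, dfdg (d := d) (aa q) (bb q) z ![v, J z v] =
          dd (g q.1) z v * (cf q.1 q.2 * (A (J z v)) q.2) - dd (g q.1) z (J z v) * (cf q.1 q.2 * (A v) q.2) := by
        intro q
        rw [dfdg_apply, hdaa, hdaa]
        change cf q.1 q.2 * dd (g q.1) z v * dd (G q.2) z (J z v) -
          cf q.1 q.2 * dd (g q.1) z (J z v) * dd (G q.2) z v = _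
        rw [hdG, hdG]
        ring
      rw [Equiv.sum_comp e fun q => dfdg (d := d) (aa q) (bb q) z ![v, J z v],
        Finset.sum_congr rfl fun q _ => h2 q, Fintype.sum_prod_type]
      refine Finset.sum_congr rfl fun j _ => ?_
      simp only
      rw [Finset.sum_sub_distrib, ← Finset.mul_sum, ← Finset.mul_sum, hlam, hlam]
      change dd (g j) z v * (- dd (g j) z (J z (J z v))) - dd (g j) z (J z v) * (- dd (g j) z (J z v)) = _
      rw [hJ.sq, map_neg]
      ring
    rw [h1]
    have h3 : ∃ j, ¬ (dd (g j) z v = 0 ∧ dd (g j) z (J z v) = 0) := by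
      by_contra h
      push Not at h
      apply hv
      exact hgk v (Submodule.mem_top) h
    obtain ⟨j, hj⟩ := h3
    refine Finset.sum_pos' (fun k _ => by positivity) ⟨j, Finset.mem_univ _, ?_⟩
    by_cases h5 : dd (g j) z v = 0
    · have h6 : dd (g j) z (J z v) ≠ 0 := fun h7 => hj ⟨h5, h7⟩
      positivity
    · positivity

end Pool.Agent.Y388.SY
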