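import Mathlib
import Pool.Agent.Y501.SY.Thin
import Pool.Agent.Y501.SY.PairL
import Pool.Agent.Y455.SY.Pert

/-!
SY-INT: thin components have empty interior, so the form is weakly taming.
-/

set_option autoImplicit false

open Set Filter Topology MeasureTheory
open scoped Manifold ContDiff

noncomputable section

namespace Pool.Agent.Y388.SY

open Pool.Agent.Y501.SY Pool.Agent.Y455.SY

section

variable {d : ℕ} {X : Type} [TopologicalSpace X] [ChartedSpace (E d) X] [IsManifold (𝓡 d) ∞ X]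

/-- the derivative of a smooth function in the chart -/
lemma hasFDerivAt_chart {f : X → ℝ} (hf : SmoothFun (d := d) f) (x : X) :
    HasFDerivAt (fun p => f ((chartAt (E d) x).symm p))
      (((dd (d := d) f x : E d →L[ℝ] ℝ)).comp (A x (chartAt (E d) x x))) (chartAt (E d) x x) := by
  set c := chartAt (E d) x with hc
  have hcx : c x ∈ c.target := mem_chart_target (E d) x
  have hsm : MDifferentiableAt (𝓡 d) (𝓡 d) c.symm (c x) :=
    (mdifferentiable_chart (I := 𝓡 d) x).symm.mdifferentiableAt hcx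
  have h1 : HasMFDerivAt (𝓡 d) (𝓡 d) c.symm (c x) (mfderiv (𝓡 d) (𝓡 d) c.symm (c x)) := hsm.hasMFDerivAt
  have h2 : HasMFDerivAt (𝓡 d) 𝓘(ℝ, ℝ) f (c.symm (c x)) (mfderiv (𝓡 d) 𝓘(ℝ, ℝ) f (c.symm (c x))) :=
    (hf.mdiff _).hasMFDerivAt
  have h3 := (h2.comp (c x) h1).hasFDerivAt
  have h4 : ∀ y : X, y = x → (mfderiv (𝓡 d) 𝓘(ℝ, ℝ) f y : E d →L[ℝ] ℝ) =
      (dd (d := d) f x : E d →L[ℝ] ℝ) := by
    rintro y rfl
    rfl
  have h5 := h4 _ (c.left_inv (mem_chart_source (E d) x))
  have h6 : HasFDerivAt (f ∘ c.symm) ((mfderiv (𝓡 d) 𝓘(ℝ, ℝ) f (c.symm (c x)) : E d →L[ℝ] ℝ).comp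
      (A x (c x))) (c x) := h3
  rw [h5] at h6
  exact h6

lemma contDiffAt_chart {f : X → ℝ} (hf : SmoothFun (d := d) f) (x : X) :
    ContDiffAt ℝ ∞ (fun p => f ((chartAt (E d) x).symm p)) (chartAt (E d) x x) := by
  set c := chartAt (E d) x with hc
  have hcx : c x ∈ c.target := mem_chart_target (E d) x
  have h1 : ContMDiffOn (𝓡 d) 𝓘(ℝ, ℝ) ∞ (f ∘ c.symm) c.target :=
    hf.comp_contMDiffOn (contMDiffOn_chart_symm (I := 𝓡 d))
  have h2 : ContDiffOn ℝ ∞ (f ∘ c.symm) c.target := contMDiffOn_iff_contDiffOn.1 h1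
  exact h2.contDiffAt (c.open_target.mem_nhds hcx)

/-- a pair of smooth functions with independent differentials maps neighbourhoods of `x` in the
chart to neighbourhoods -/
lemma open_pair {f g : X → ℝ} (hf : SmoothFun (d := d) f) (hg : SmoothFun (d := d) g) (x : X)
    (v w : E d) (hne : (dd (d := d) f x : E d →L[ℝ] ℝ) v * (dd (d := d) g x : E d →L[ℝ] ℝ) w -
      (dd (d := d) f x : E d →L[ℝ] ℝ) w * (dd (d := d) g x : E d →L[ℝ] ℝ) v ≠ 0) (M : Set (E d))
    (hM : M ∈ 𝓝 (chartAt (E d) x x)) :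
    0 < volume ((fun p => (f ((chartAt (E d) x).symm p), g ((chartAt (E d) x).symm p))) '' M) := by
  set c := chartAt (E d) x with hc
  have hcx : c x ∈ c.target := mem_chart_target (E d) x
  set α : E d →L[ℝ] ℝ := (dd (d := d) f x : E d →L[ℝ] ℝ) with hα
  set β : E d →L[ℝ] ℝ := (dd (d := d) g x : E d →L[ℝ] ℝ) with hβ
  set h : E d → ℝ × ℝ := fun p => (f (c.symm p), g (c.symm p)) with hh
  have h1 : ContDiffAt ℝ ∞ h (c x) := (contDiffAt_chart hf x).prodMk (contDiffAt_chart hg x)
  have h2 : HasFDerivAt h ((α.comp (A x (c x))).prod (β.comp (A x (c x)))) (c x) :=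
    (hasFDerivAt_chart hf x).prodMk (hasFDerivAt_chart hg x)
  have h3 : HasStrictFDerivAt h ((α.comp (A x (c x))).prod (β.comp (A x (c x)))) (c x) :=
    h1.hasStrictFDerivAt' h2 (by simp)
  have h4 : ((α.comp (A x (c x))).prod (β.comp (A x (c x)))).range = ⊤ := by
    rw [LinearMap.range_eq_top]
    rintro ⟨s, t⟩
    set Δ := α v * β w - α w * β v with hΔ
    obtain ⟨u, hu⟩ := A_surj x hcx (((s * β w - t * α w) / Δ) • v + ((t * α v - s * β v) / Δ) • w)
    refine ⟨u, ?_⟩
    change (α (A x (c x) u), β (A x (c x) u)) = (s, t)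
    rw [hu]
    simp only [map_add, map_smul, smul_eq_mul]
    have hΔ0 : Δ ≠ 0 := hne
    have e1 : (s * β w - t * α w) / Δ * α v + (t * α v - s * β v) / Δ * α w = s := by
      rw [div_mul_eq_mul_div, div_mul_eq_mul_div, ← add_div, div_eq_iff hΔ0, hΔ]; ring
    have e2 : (s * β w - t * α w) / Δ * β v + (t * α v - s * β v) / Δ * β w = t := by
      rw [div_mul_eq_mul_div, div_mul_eq_mul_div, ← add_div, div_eq_iff hΔ0, hΔ]; ring
    rw [e1, e2]
  have h5 := h3.map_nhds_eq_of_surj h4
  have h6 : h '' M ∈ 𝓝 (h (c x)) := by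
    rw [← h5]
    exact image_mem_map hM
  exact MeasureTheory.Measure.measure_pos_of_mem_nhds volume h6

end

theorem t_INT : S_INT := by
  intro d X _ _ _ _ J hJ σ hσ hthin
  set D : Set X := {x | ¬ TamesAt σ J x} with hD
  have hint : ∀ x, x ∉ interior D := by
    intro x hx
    set c := chartAt (E d) x with hc
    have hxs : x ∈ c.source := mem_chart_source (E d) x
    have hcx : c x ∈ c.target := mem_chart_target (E d) x
    have hcont : ContinuousAt c.symm (c x) := c.continuousAt_symm hcx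
    have hW : c.symm ⁻¹' (interior D) ∩ c.target ∈ 𝓝 (c x) := by
      refine inter_mem ?_ (c.open_target.mem_nhds hcx)
      apply hcont
      rw [c.left_inv hxs]
      exact isOpen_interior.mem_nhds hx
    obtain ⟨r, hr, hball⟩ := Metric.mem_nhds_iff.1 hW
    have hC : c.symm '' (Metric.ball (c x) r) ⊆ connectedComponentIn D x := by
      apply IsPreconnected.subset_connectedComponentIn
      · exact (convex_ball _ _).isPreconnected.image _
          (c.continuousOn_symm.mono fun p hp => (hball hp).2)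
      · exact ⟨c x, Metric.mem_ball_self hr, c.left_inv hxs⟩
      · rintro _ ⟨p, hp, rfl⟩
        exact interior_subset (hball hp).1
    have hx' : ¬ TamesAt σ J x := interior_subset hx
    obtain ⟨n, a, b, N, hN, ha, hb, hvol, hpos⟩ := hthin x hx'
    unfold TamesAt at hx'
    push Not at hx'
    obtain ⟨v, hv0, hv⟩ := hx'
    have h1 := hpos v hv0 hv
    obtain ⟨i, hi⟩ : ∃ i, dfdg (d := d) (a i) (b i) x ![v, J x v] ≠ 0 := by
      by_contra h
      push Not at h
      rw [sum_apply2, Finset.sum_eq_zero fun i _ => h i] at h1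
      exact lt_irrefl _ h1
    rw [dfdg_apply] at hi
    have hM : Metric.ball (c x) r ∩ c.symm ⁻¹' N ∈ 𝓝 (c x) := by
      refine inter_mem (Metric.ball_mem_nhds _ hr) (hcont ?_)
      rw [c.left_inv hxs]
      exact hN
    have h2 := open_pair (ha i) (hb i) x v (J x v) hi _ hM
    have h3 : (fun p => (a i (c.symm p), b i (c.symm p))) '' (Metric.ball (c x) r ∩ c.symm ⁻¹' N) ⊆
        (fun x => (a i x, b i x)) '' (connectedComponentIn D x ∩ N) := by
      rintro _ ⟨p, hp, rfl⟩
      exact ⟨c.symm p, ⟨hC ⟨p, hp.1, rfl⟩, hp.2⟩, rfl⟩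
    have h4 := measure_mono (μ := (volume : Measure (ℝ × ℝ))) h3
    rw [hvol i] at h4
    exact absurd (lt_of_lt_of_le h2 h4) (lt_irrefl _)
  intro x v
  set c := chartAt (E d) x with hc
  have hxs : x ∈ c.source := mem_chart_source (E d) x
  have hcx : c x ∈ c.target := mem_chart_target (E d) x
  have hQ : ∀ w : E d, 0 ≤ Q σ J x (c x) w := by
    intro w
    by_contra hneg
    push Not at hneg
    have h1 : ContinuousAt (fun p : E d => Q σ J x p w) (c x) :=
      ContinuousAt.comp (f := fun p : E d => (p, w)) (x := c x)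
        (g := fun z : E d × E d => Q σ J x z.1 z.2) (Q_cont hσ hJ x hcx)
        (continuousAt_id.prodMk continuousAt_const)
    have h2 : ∀ᶠ p in 𝓝 (c x), Q σ J x p w < 0 := h1.eventually (gt_mem_nhds hneg)
    have h3 : ∀ᶠ y in 𝓝 x, Q σ J x (c y) w < 0 := (c.continuousAt hxs).eventually h2
    have h4 : ∀ᶠ y in 𝓝 x, y ∈ c.source := c.open_source.mem_nhds hxs
    apply hint x
    rw [mem_interior_iff_mem_nhds]
    filter_upwards [h3, h4] with y hy hys ht
    have hcy : c y ∈ c.target := c.map_source hys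
    rw [← c.left_inv hys, tames_iff σ J x hcy] at ht
    by_cases hw : w = 0
    · rw [hw] at hy
      have h5 : Q σ J x (c y) 0 = 0 := by
        have := Q_smul σ J x (c y) 0 0
        rw [smul_zero] at this
        rw [this]; ring
      rw [h5] at hy
      exact lt_irrefl _ hy
    · have := ht w hw
      linarith
  have h1 : ∀ y : X, y = c.symm (c x) → ∀ v : TangentSpace (𝓡 d) y, 0 ≤ σ y ![v, J y v] := by
    rintro y rfl v
    obtain ⟨w, hw⟩ := A_surj x hcx v
    have h2 := hQ w
    rw [Q_eq σ J x hcx, hw] at h2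
    exact h2
  exact h1 x (c.left_inv hxs).symm v

end Pool.Agent.Y388.SY
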